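import Pool.Agent.Y752.QF.Stm3
import Pool.Agent.Y832.QF.Ar

set_option autoImplicit false

/-! Project QF, second wave: pointwise estimate with the squarefree part (ARC). -/

namespace Pool.Agent.Y369.QF

open Pool.Agent.Y752.QF
open Pool.Agent.Y832.QF
open Pool.Agent.H306R2.RG (FD F8 F4 F1 cf jo)
open Pool.Agent.H306R2.RZ (js)

noncomputable section

/-- not a square, any bound -/
lemma ns_gen {K : ℝ} (hK : 0 ≤ K) (b : Bool) (X v n : ℕ) (hn : Odd n)
    (hN : ∀ D a : ℕ, a % 2 = 1 → |NN D n a| ≤ K * Real.sqrt D) :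
    |RR b X (2 ^ v * n)| ≤ 4 + 16 * K * Real.sqrt X := by
  have h1 := RR_cls b X v n hn
  have h2 : |∑ i : Fin 4, (fam b i).η ^ v * (js (fam b i).e n *
      ∑ a ∈ cls b i, NN (X / (fam b i).r) n a)| ≤ 16 * K * Real.sqrt X := by
    calc _ ≤ ∑ i : Fin 4, |(fam b i).η ^ v * (js (fam b i).e n *
        ∑ a ∈ cls b i, NN (X / (fam b i).r) n a)| := Finset.abs_sum_le_sum_abs _ _
      _ ≤ ∑ i : Fin 4, 4 * (K * Real.sqrt X) := by
          refine Finset.sum_le_sum fun i _ => ?_
          rw [abs_mul, abs_mul]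
          have h3 : |∑ a ∈ cls b i, NN (X / (fam b i).r) n a| ≤ 4 * (K * Real.sqrt X) := by
            calc _ ≤ ∑ a ∈ cls b i, |NN (X / (fam b i).r) n a| := Finset.abs_sum_le_sum_abs _ _
              _ ≤ ∑ a ∈ cls b i, K * Real.sqrt X := by
                  refine Finset.sum_le_sum fun a ha => ?_
                  refine (hN _ a (cls_sub b i a ha).2).trans ?_
                  have h4 : Real.sqrt ((X / (fam b i).r : ℕ) : ℝ) ≤ Real.sqrt X :=
                    Real.sqrt_le_sqrt (by exact_mod_cast Nat.div_le_self _ _)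
                  gcongr
              _ = (cls b i).card * (K * Real.sqrt X) := by
                  rw [Finset.sum_const, nsmul_eq_mul]
              _ ≤ 4 * (K * Real.sqrt X) := by
                  have : ((cls b i).card : ℝ) ≤ 4 := by exact_mod_cast cls_card b i
                  gcongr
          calc _ ≤ 1 * (1 * (4 * (K * Real.sqrt X))) := by
                refine mul_le_mul (eta_le b i v) (mul_le_mul (abs_js_le _ _) h3 (abs_nonneg _)
                  zero_le_one) (by positivity) zero_le_one
            _ = 4 * (K * Real.sqrt X) := by ring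
      _ = 16 * K * Real.sqrt X := by
          rw [Finset.sum_const, Finset.card_univ, Fintype.card_fin, nsmul_eq_mul]
          push_cast
          ring
  have h6 := abs_sub_abs_le_abs_sub (RR b X (2 ^ v * n)) (∑ i : Fin 4, (fam b i).η ^ v *
    (js (fam b i).e n * ∑ a ∈ cls b i, NN (X / (fam b i).r) n a))
  linarith

/-- square, any bound -/
lemma sq_gen {K : ℝ} (hK : 0 ≤ K) (b : Bool) (X v s : ℕ) (hs : Odd s)
    (hN : ∀ D a : ℕ, a < 8 → a % 2 = 1 →
      |NN D (s * s) a - 1 / Real.pi ^ 2 * D * hw (s * s)| ≤ K * Real.sqrt D) :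
    |RR b X (2 ^ v * (s * s)) - mm X (2 ^ v * (s * s))| ≤ 20 + 16 * K * Real.sqrt X := by
  have hn : Odd (s * s) := hs.mul hs
  have h1 := RR_cls b X v (s * s) hn
  rw [← mt b X v (s * s) hn ⟨s, rfl⟩]
  have h2 : |∑ i : Fin 4, (fam b i).η ^ v * (js (fam b i).e (s * s) *
      ∑ a ∈ cls b i, NN (X / (fam b i).r) (s * s) a) -
      ∑ i : Fin 4, (fam b i).η ^ v * ((cls b i).card *
        (1 / Real.pi ^ 2 * (X / (fam b i).r) * hw (s * s)))| ≤
      16 + 16 * K * Real.sqrt X := by
    rw [← Finset.sum_sub_distrib]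
    calc _ ≤ ∑ i : Fin 4, |(fam b i).η ^ v * (js (fam b i).e (s * s) *
        ∑ a ∈ cls b i, NN (X / (fam b i).r) (s * s) a) - (fam b i).η ^ v * ((cls b i).card *
        (1 / Real.pi ^ 2 * (X / (fam b i).r) * hw (s * s)))| := Finset.abs_sum_le_sum_abs _ _
      _ ≤ ∑ i : Fin 4, 4 * (1 + K * Real.sqrt X) := by
          refine Finset.sum_le_sum fun i _ => ?_
          rw [← mul_sub, abs_mul, js_e b i s hs, one_mul]
          have h3 : |∑ a ∈ cls b i, NN (X / (fam b i).r) (s * s) a - (cls b i).card *
              (1 / Real.pi ^ 2 * (X / (fam b i).r) * hw (s * s))| ≤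
              4 * (1 + K * Real.sqrt X) := by
            rw [← nsmul_eq_mul, ← Finset.sum_const, ← Finset.sum_sub_distrib]
            calc _ ≤ ∑ a ∈ cls b i, |NN (X / (fam b i).r) (s * s) a -
                  1 / Real.pi ^ 2 * (X / (fam b i).r) * hw (s * s)| :=
                  Finset.abs_sum_le_sum_abs _ _
              _ ≤ ∑ a ∈ cls b i, (1 + K * Real.sqrt X) := by
                  refine Finset.sum_le_sum fun a ha => ?_
                  have h4 := hN (X / (fam b i).r) a (cls_sub b i a ha).1 (cls_sub b i a ha).2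
                  have h5 : |1 / Real.pi ^ 2 * ((X / (fam b i).r : ℕ) : ℝ) * hw (s * s) -
                      1 / Real.pi ^ 2 * (X / (fam b i).r) * hw (s * s)| ≤ 1 := by
                    rw [← sub_mul, ← mul_sub, abs_mul, abs_mul]
                    have h6 : |((X / (fam b i).r : ℕ) : ℝ) - X / (fam b i).r| ≤ 1 := by
                      have hr0 : (0 : ℝ) < (fam b i).r := by exact_mod_cast r_pos b i
                      have h7 : ((X / (fam b i).r : ℕ) : ℝ) ≤ X / (fam b i).r := Nat.cast_div_le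
                      have h8 : (X : ℝ) / (fam b i).r < ((X / (fam b i).r : ℕ) : ℝ) + 1 := by
                        rw [div_lt_iff₀ hr0]
                        have := Nat.lt_div_mul_add (a := X) (b := (fam b i).r) (r_pos b i)
                        have h9 : X < (X / (fam b i).r + 1) * (fam b i).r := by
                          rw [add_mul, one_mul]; exact this
                        exact_mod_cast h9
                      rw [abs_le]
                      constructor <;> linarith
                    have h7 : |1 / Real.pi ^ 2| ≤ 1 := by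
                      rw [abs_of_nonneg (by positivity), div_le_one (by positivity)]
                      nlinarith [Real.pi_gt_three]
                    have h8 : |hw (s * s)| ≤ 1 := by
                      rw [abs_of_nonneg (hw_nonneg _)]
                      exact hw_le_one _
                    calc |1 / Real.pi ^ 2| * |((X / (fam b i).r : ℕ) : ℝ) - X / (fam b i).r| *
                          |hw (s * s)| ≤ (1 : ℝ) * 1 * 1 := by
                          refine mul_le_mul (mul_le_mul h7 h6 (abs_nonneg _) zero_le_one) h8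
                            (abs_nonneg _) (by norm_num)
                      _ = 1 := by norm_num
                  have h6 : K * Real.sqrt ((X / (fam b i).r : ℕ) : ℝ) ≤ K * Real.sqrt X := by
                    have h4 : Real.sqrt ((X / (fam b i).r : ℕ) : ℝ) ≤ Real.sqrt X :=
                      Real.sqrt_le_sqrt (by exact_mod_cast Nat.div_le_self _ _)
                    gcongr
                  calc _ ≤ |NN (X / (fam b i).r) (s * s) a -
                        1 / Real.pi ^ 2 * ((X / (fam b i).r : ℕ) : ℝ) * hw (s * s)| +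
                        |1 / Real.pi ^ 2 * ((X / (fam b i).r : ℕ) : ℝ) * hw (s * s) -
                          1 / Real.pi ^ 2 * (X / (fam b i).r) * hw (s * s)| :=
                        abs_sub_le _ _ _
                    _ ≤ K * Real.sqrt X + 1 := add_le_add (h4.trans h6) h5
                    _ = 1 + K * Real.sqrt X := add_comm _ _
              _ = (cls b i).card * (1 + K * Real.sqrt X) := by
                  rw [Finset.sum_const, nsmul_eq_mul]
              _ ≤ 4 * (1 + K * Real.sqrt X) := by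
                  have : ((cls b i).card : ℝ) ≤ 4 := by exact_mod_cast cls_card b i
                  have h0 : 0 ≤ 1 + K * Real.sqrt X := by positivity
                  gcongr
          calc _ ≤ 1 * (4 * (1 + K * Real.sqrt X)) :=
                mul_le_mul (eta_le b i v) h3 (abs_nonneg _) zero_le_one
            _ = _ := one_mul _
      _ = 16 + 16 * K * Real.sqrt X := by
          rw [Finset.sum_const, Finset.card_univ, Fintype.card_fin, nsmul_eq_mul]
          push_cast
          ring
  have h6 := abs_sub_le (RR b X (2 ^ v * (s * s))) (∑ i : Fin 4, (fam b i).η ^ v *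
    (js (fam b i).e (s * s) * ∑ a ∈ cls b i, NN (X / (fam b i).r) (s * s) a))
    (∑ i : Fin 4, (fam b i).η ^ v * ((cls b i).card *
        (1 / Real.pi ^ 2 * (X / (fam b i).r) * hw (s * s))))
  linarith

open Classical in
lemma NN_cop (D s m a : ℕ) (hs : s ≠ 0) (hm : m ≠ 0) : NN D (s * s * m) a =
    ∑ d ∈ (Finset.Icc 1 D).filter (fun d => Squarefree d ∧ d % 8 = a ∧ Nat.Coprime d s), js d m := by
  have : NeZero (s * s) := ⟨Nat.mul_ne_zero hs hs⟩
  have : NeZero m := ⟨hm⟩
  unfold NN
  rw [Finset.sum_filter, Finset.sum_filter]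
  refine Finset.sum_congr rfl fun d _ => ?_
  have h1 : js d (s * s * m) = js d (s * s) * js d m := by
    unfold js
    rw [jacobiSym.mul_right]
    push_cast
    rfl
  have h2 : Nat.Coprime d (s * s) ↔ Nat.Coprime d s :=
    ⟨fun h => Nat.Coprime.coprime_mul_right_right h, fun h => Nat.Coprime.mul_right h h⟩
  rw [h1, js_sq_ite d s hs]
  by_cases h3 : Nat.Coprime d s
  · rw [if_pos (h2.mpr h3), one_mul]
    by_cases h4 : Squarefree d ∧ d % 8 = a
    · rw [if_pos h4, if_pos ⟨h4.1, h4.2, h3⟩]
    · rw [if_neg h4, if_neg (fun h => h4 ⟨h.1, h.2.1⟩)]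
  · rw [if_neg (fun h => h3 (h2.mp h)), zero_mul, ite_self, if_neg (fun h => h3 h.2.2)]

/-- ARC -/
theorem ARC (h1 : S_FM) (h2 : S_SQF) (h3 : S_NSQC) : S_ARC := by
  intro ε hε
  obtain ⟨C2, hC2, h2⟩ := h2
  obtain ⟨C3, hC3, h3⟩ := h3 ε hε
  obtain ⟨C4, hC4, h4⟩ := Pool.Agent.H510R2.divisor_bound (ε / 2) (by positivity)
  refine ⟨(4 + 16 * C3) + (20 + 16 * C2 * C4), by positivity, ?_⟩
  intro b X m l hX hm hl hsf
  have hN1 : 1 ≤ l ^ 2 * m := Nat.mul_pos (by positivity) hm
  have e1 : Ee b X (l ^ 2 * m) = ((RR b X (l ^ 2 * m) - mm X (l ^ 2 * m) : ℝ) : ℂ) := by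
    unfold Ee
    rw [h1 b X (l ^ 2 * m) hN1]
    unfold RR
    push_cast
    rfl
  rw [e1, Complex.norm_real, Real.norm_eq_abs, ← Real.sqrt_eq_rpow]
  obtain ⟨va, l', hl', hla⟩ := Nat.exists_eq_two_pow_mul_odd (n := l) (by omega)
  obtain ⟨vb, m', hm', hmb⟩ := Nat.exists_eq_two_pow_mul_odd (n := m) (by omega)
  have hl'l : l' ≤ l := by rw [hla]; exact Nat.le_mul_of_pos_left l' (by positivity)
  have hm'm : m' ≤ m := by rw [hmb]; exact Nat.le_mul_of_pos_left m' (by positivity)
  have hl'0 : l' ≠ 0 := hl'.pos.ne'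
  have hm'0 : m' ≠ 0 := hm'.pos.ne'
  have hsf' : Squarefree m' := hsf.squarefree_of_dvd ⟨2 ^ vb, by rw [hmb, mul_comm]⟩
  have eN : l ^ 2 * m = 2 ^ (2 * va + vb) * (l' * l' * m') := by
    rw [hla, hmb]
    ring
  have hl1 : (1 : ℝ) ≤ l := by exact_mod_cast hl
  have hm1 : (1 : ℝ) ≤ m := by exact_mod_cast hm
  have hlm1 : (1 : ℝ) ≤ (l : ℝ) * m := one_le_mul_of_one_le_of_one_le hl1 hm1
  have hX1 : (1 : ℝ) ≤ Real.sqrt X := by
    rw [Real.one_le_sqrt]; exact_mod_cast hX
  have hP1 : (1 : ℝ) ≤ (m : ℝ) ^ (1 / 4 : ℝ) := Real.one_le_rpow hm1 (by norm_num)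
  have hP2 : (1 : ℝ) ≤ ((l : ℝ) * m) ^ ε := Real.one_le_rpow hlm1 hε.le
  set P1 := (m : ℝ) ^ (1 / 4 : ℝ) with hP1d
  set P2 := ((l : ℝ) * m) ^ ε with hP2d
  have hPP : (1 : ℝ) ≤ P1 * P2 := one_le_mul_of_one_le_of_one_le hP1 hP2
  have hXP : (1 : ℝ) ≤ Real.sqrt X * (P1 * P2) := one_le_mul_of_one_le_of_one_le hX1 hPP
  rw [eN]
  by_cases hone : m' = 1
  · -- the odd part is a square
    rw [hone, mul_one]
    have hK : ((l' * l').divisors.card : ℝ) ≤ C4 * (P1 * P2) := by
      refine (h4 (l' * l') (Nat.mul_pos hl'.pos hl'.pos)).trans ?_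
      apply mul_le_mul_of_nonneg_left _ hC4.le
      have e2 : (((l' * l' : ℕ) : ℝ)) ^ (ε / 2) = (l' : ℝ) ^ ε := by
        push_cast
        rw [Real.mul_rpow (by positivity) (by positivity),
          ← Real.rpow_add (by exact_mod_cast hl'.pos)]
        congr 1
        ring
      rw [e2]
      have e3 : (l' : ℝ) ^ ε ≤ P2 := by
        apply Real.rpow_le_rpow (by positivity) _ hε.le
        have : (l' : ℝ) ≤ l := by exact_mod_cast hl'l
        nlinarith
      calc (l' : ℝ) ^ ε ≤ P2 := e3
        _ = 1 * P2 := (one_mul _).symm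
        _ ≤ P1 * P2 := by gcongr
    have h5 := sq_gen (K := C2 * (C4 * (P1 * P2))) (by positivity) b X (2 * va + vb) l' hl'
      (fun D a ha1 ha2 => by
        have h6 := h2 D (l' * l') a (Nat.mul_pos hl'.pos hl'.pos) ha1 ha2
        rw [NN_sq D l' a hl'0]
        have h7 : (l' * l').primeFactors.erase 2 = (l' * l').primeFactors := by
          apply Finset.erase_eq_of_notMem
          intro h
          exact (Nat.not_even_iff_odd.2 (hl'.mul hl')) (even_iff_two_dvd.2 (Nat.dvd_of_mem_primeFactors h))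
        rw [h7] at h6
        refine le_trans h6 ?_
        gcongr)
    refine h5.trans ?_
    have h0 : 0 ≤ (4 + 16 * C3) * (Real.sqrt X * (P1 * P2)) := by positivity
    nlinarith
  · -- not a square
    have hns : ¬ IsSquare m' := by
      rintro ⟨t, ht⟩
      have h6 := hsf' t ⟨1, by rw [mul_one]; exact ht⟩
      rw [Nat.isUnit_iff] at h6
      rw [h6] at ht
      exact hone ht
    have hns2 : ¬ IsSquare (l' * l' * m') := by
      rintro ⟨t, ht⟩
      have h6 : l' ^ 2 ∣ t ^ 2 := ⟨m', by rw [sq t, ← ht]; ring⟩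
      have h7 : l' ∣ t := (Nat.pow_dvd_pow_iff (by norm_num)).mp h6
      obtain ⟨c, rfl⟩ := h7
      apply hns
      refine ⟨c, ?_⟩
      have h8 : l' * l' * m' = l' * l' * (c * c) := by rw [ht]; ring
      exact Nat.eq_of_mul_eq_mul_left (Nat.mul_pos hl'.pos hl'.pos) h8
    have hmm : mm X (2 ^ (2 * va + vb) * (l' * l' * m')) = 0 := by
      unfold mm
      rw [if_neg fun h => hns2 ((isSquare_iff _ _ ((hl'.mul hl').mul hm')).1 h).2, mul_zero]
    rw [hmm, sub_zero]
    have h5 := ns_gen (K := C3 * (P1 * P2)) (by positivity) b X (2 * va + vb) (l' * l' * m')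
      ((hl'.mul hl').mul hm') (fun D a ha => by
        rw [NN_cop D l' m' a hl'0 hm'0]
        refine (h3 D m' a l' hm' hns ha hl'.pos).trans ?_
        have e2 : (m' : ℝ) ^ (1 / 4 + ε) * (l' : ℝ) ^ ε ≤ P1 * P2 := by
          have hm0 : (0 : ℝ) < m' := by exact_mod_cast hm'.pos
          have hl0 : (0 : ℝ) < l' := by exact_mod_cast hl'.pos
          rw [Real.rpow_add hm0, mul_assoc, ← Real.mul_rpow hm0.le hl0.le]
          have hmm' : (m' : ℝ) ≤ m := by exact_mod_cast hm'm
          have hll' : (l' : ℝ) ≤ l := by exact_mod_cast hl'l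
          apply mul_le_mul
          · exact Real.rpow_le_rpow hm0.le hmm' (by norm_num)
          · apply Real.rpow_le_rpow (by positivity) _ hε.le
            rw [mul_comm (l : ℝ)]
            gcongr
          · positivity
          · positivity
        calc C3 * Real.sqrt D * (m' : ℝ) ^ (1 / 4 + ε) * (l' : ℝ) ^ ε =
            C3 * Real.sqrt D * ((m' : ℝ) ^ (1 / 4 + ε) * (l' : ℝ) ^ ε) := by ring
          _ ≤ C3 * Real.sqrt D * (P1 * P2) := by gcongr
          _ = _ := by ring)
    refine h5.trans ?_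
    have h0 : 0 ≤ (20 + 16 * C2 * C4) * (Real.sqrt X * (P1 * P2)) := by positivity
    nlinarith

end

end Pool.Agent.Y369.QF
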