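import Pool.Agent.Y369.QF.NsqA

set_option autoImplicit false

/-! Squarefree numbers twisted by a nontrivial Jacobi symbol: the sieve. -/

namespace Pool.Agent.Y369.QF

open Finset

lemma sq_dvd_iff {b s l : ℕ} (hb : b ≠ 0) (hs : Squarefree s) (hl : l ≠ 0) :
    l ^ 2 ∣ b ^ 2 * s ↔ l ∣ b := by
  constructor
  · intro h
    rw [← Nat.factorization_le_iff_dvd hl hb]
    intro p
    have h1 := (Nat.factorization_le_iff_dvd (by positivity)
      (mul_ne_zero (by positivity) hs.ne_zero)).mpr h p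
    rw [Nat.factorization_mul (by positivity) hs.ne_zero, Nat.factorization_pow,
      Nat.factorization_pow] at h1
    simp only [Finsupp.coe_add, Pi.add_apply, Finsupp.coe_smul, Pi.smul_apply, smul_eq_mul] at h1
    have h2 := hs.natFactorization_le_one p
    omega
  · intro h
    exact (pow_dvd_pow_of_dvd h 2).mul_right s

lemma sqf_ind {d D : ℕ} (hd : 1 ≤ d) (hD : d ≤ D) :
    ∑ l ∈ (Icc 1 D).filter (fun l => l ^ 2 ∣ d), ArithmeticFunction.moebius l =
      if Squarefree d then 1 else 0 := by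
  obtain ⟨s, b, hsb, hs⟩ := Nat.sq_mul_squarefree d
  have hb0 : b ≠ 0 := by rintro rfl; simp at hsb; omega
  have h1 : (Icc 1 D).filter (fun l => l ^ 2 ∣ d) = b.divisors := by
    ext l
    rw [mem_filter, mem_Icc, Nat.mem_divisors, ← hsb]
    constructor
    · rintro ⟨⟨h1, h2⟩, h3⟩
      exact ⟨(sq_dvd_iff hb0 hs (by omega)).mp h3, hb0⟩
    · rintro ⟨h1, _⟩
      have hl0 : l ≠ 0 := by rintro rfl; simp at h1; exact hb0 h1
      refine ⟨⟨by omega, ?_⟩, (sq_dvd_iff hb0 hs hl0).mpr h1⟩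
      have h2 : l ≤ b := Nat.le_of_dvd (by omega) h1
      have h3 : b ≤ b ^ 2 * s := by
        have : 1 ≤ s := Nat.pos_of_ne_zero hs.ne_zero
        calc b = b * 1 * 1 := by ring
          _ ≤ b * b * s := by
            apply Nat.mul_le_mul _ this
            exact Nat.mul_le_mul_left _ (by omega)
          _ = _ := by ring
      omega
  rw [h1]
  have h2 := congrArg (fun g => g b) ArithmeticFunction.moebius_mul_coe_zeta
  simp only [ArithmeticFunction.coe_mul_zeta_apply, ArithmeticFunction.one_apply] at h2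
  rw [h2]
  have h3 : b = 1 ↔ Squarefree d := by
    constructor
    · rintro rfl
      rw [← hsb, one_pow, one_mul]
      exact hs
    · intro h
      have : b * b ∣ d := ⟨s, by rw [← hsb]; ring⟩
      exact Nat.isUnit_iff.mp (h b this)
  simp only [h3]

lemma sq_mod8 {l : ℕ} (hl : l % 2 = 1) : l ^ 2 % 8 = 1 := by
  have : l % 8 = 1 ∨ l % 8 = 3 ∨ l % 8 = 5 ∨ l % 8 = 7 := by omega
  rcases this with h | h | h | h <;> rw [Nat.pow_mod, h]

/-- the inner sum -/
lemma inner (n : ℕ) (ho : Odd n) (hn : ¬ IsSquare n) (a D l : ℕ) (ha8 : a < 8) (ha1 : a % 2 = 1)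
    (hl : 1 ≤ l) :
    |((∑ d ∈ (Icc 1 D).filter (fun d => d % 8 = a ∧ l ^ 2 ∣ d), jacobiSym (d : ℤ) n : ℤ) : ℝ)| ≤
      min ((D : ℝ) / (l : ℝ) ^ 2) (2 * BB n) := by
  have hl2 : 0 < l ^ 2 := by positivity
  have hBB : 0 ≤ BB n := by
    unfold BB
    have := Real.log_natCast_nonneg n
    positivity
  rcases Nat.even_or_odd l with he | hlo
  · have h1 : (Icc 1 D).filter (fun d => d % 8 = a ∧ l ^ 2 ∣ d) = ∅ := by
      rw [filter_eq_empty_iff]
      rintro d _ ⟨h1, h2⟩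
      obtain ⟨m, hm⟩ := he.two_dvd
      obtain ⟨k, hk⟩ := h2
      have : d = 2 * (2 * m ^ 2 * k) := by rw [hk, hm]; ring
      omega
    rw [h1]
    simp
    constructor
    · positivity
    · exact hBB
  · have hl1 : l % 2 = 1 := Nat.odd_iff.mp hlo
    have h1 : ∑ d ∈ (Icc 1 D).filter (fun d => d % 8 = a ∧ l ^ 2 ∣ d), jacobiSym (d : ℤ) n =
        ∑ e ∈ (Icc 1 (D / l ^ 2)).filter (fun e => e % 8 = a),
          jacobiSym ((l ^ 2 : ℕ) : ℤ) n * jacobiSym (e : ℤ) n := by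
      symm
      apply sum_nbij' (fun e => l ^ 2 * e) (fun d => d / l ^ 2)
      · intro e he
        rw [mem_filter, mem_Icc] at he ⊢
        refine ⟨⟨?_, ?_⟩, ?_, dvd_mul_right _ _⟩
        · have := Nat.mul_le_mul hl2 he.1.1
          omega
        · rw [mul_comm]
          exact (Nat.le_div_iff_mul_le hl2).mp he.1.2
        · rw [Nat.mul_mod, sq_mod8 hl1, one_mul, Nat.mod_mod]
          exact he.2
      · intro d hd
        rw [mem_filter, mem_Icc] at hd ⊢
        obtain ⟨⟨h1, h2⟩, h3, k, hk⟩ := hd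
        have hk0 : k ≠ 0 := by rintro rfl; omega
        have e1 : d / l ^ 2 = k := by rw [hk]; exact Nat.mul_div_cancel_left k hl2
        rw [e1]
        refine ⟨⟨by omega, ?_⟩, ?_⟩
        · rw [← e1]
          exact Nat.div_le_div_right h2
        · rw [hk, Nat.mul_mod, sq_mod8 hl1, one_mul, Nat.mod_mod] at h3
          exact h3
      · intro e he
        exact Nat.mul_div_cancel_left e hl2
      · intro d hd
        rw [mem_filter, mem_Icc] at hd
        exact Nat.mul_div_cancel' hd.2.2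
      · intro e he
        rw [← jacobiSym.mul_left]
        push_cast
        rfl
    rw [h1, ← mul_sum, Int.cast_mul, abs_mul]
    have h6 := Pool.Agent.H379R2.W.jacobi_natAbs_le ((l ^ 2 : ℕ) : ℤ) n
    have h6' : |((jacobiSym ((l ^ 2 : ℕ) : ℤ) n : ℤ) : ℝ)| ≤ 1 := by
      rw [← Int.cast_abs]
      exact_mod_cast h6
    have h7 : |((∑ e ∈ (Icc 1 (D / l ^ 2)).filter (fun e => e % 8 = a),
        jacobiSym (e : ℤ) n : ℤ) : ℝ)| ≤ min ((D : ℝ) / (l : ℝ) ^ 2) (2 * BB n) := by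
      apply le_min
      · rw [Int.cast_sum]
        refine (abs_sum_le_sum_abs _ _).trans ?_
        have h8 : ∀ e ∈ (Icc 1 (D / l ^ 2)).filter (fun e => e % 8 = a),
            |((jacobiSym (e : ℤ) n : ℤ) : ℝ)| ≤ 1 := by
          intro e _
          rw [← Int.cast_abs]
          exact_mod_cast Pool.Agent.H379R2.W.jacobi_natAbs_le (e : ℤ) n
        refine (sum_le_sum h8).trans ?_
        rw [sum_const, nsmul_eq_mul, mul_one]
        have h9 : ((Icc 1 (D / l ^ 2)).filter (fun e => e % 8 = a)).card ≤ D / l ^ 2 := by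
          refine (card_filter_le _ _).trans ?_
          rw [Nat.card_Icc, Nat.add_sub_cancel]
        calc ((((Icc 1 (D / l ^ 2)).filter (fun e => e % 8 = a)).card : ℕ) : ℝ) ≤
              ((D / l ^ 2 : ℕ) : ℝ) := by exact_mod_cast h9
          _ ≤ (D : ℝ) / ((l ^ 2 : ℕ) : ℝ) := Nat.cast_div_le
          _ = _ := by push_cast; rfl
      · exact class_sum n ho hn a _ ha8 (by omega)
    calc _ ≤ 1 * _ := mul_le_mul_of_nonneg_right h6' (abs_nonneg _)
      _ ≤ _ := by rw [one_mul]; exact h7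

open Classical in
lemma main_bound (n : ℕ) (ho : Odd n) (hn : ¬ IsSquare n) (a D : ℕ) (ha8 : a < 8)
    (ha1 : a % 2 = 1) :
    |((∑ d ∈ (Icc 1 D).filter (fun d => Squarefree d ∧ d % 8 = a), jacobiSym (d : ℤ) n : ℤ) : ℝ)| ≤
      4 * Real.sqrt D * Real.sqrt (2 * BB n) := by
  rcases Nat.eq_zero_or_pos D with rfl | hD
  · simp
  have hn1 : 1 ≤ n := ho.pos
  have hBB : 0 < BB n := by
    unfold BB
    have := Real.log_natCast_nonneg n
    have h2 : 0 < n.divisors.card := card_pos.mpr ⟨1, Nat.one_mem_divisors.mpr (by omega)⟩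
    have h3 : (0 : ℝ) < n.divisors.card := by exact_mod_cast h2
    have h4 : (0 : ℝ) < n := by exact_mod_cast hn1
    have h5 : 0 < Real.sqrt n := Real.sqrt_pos.mpr h4
    positivity
  have h1 : ∑ d ∈ (Icc 1 D).filter (fun d => Squarefree d ∧ d % 8 = a), jacobiSym (d : ℤ) n =
      ∑ l ∈ Icc 1 D, ArithmeticFunction.moebius l *
        ∑ d ∈ (Icc 1 D).filter (fun d => d % 8 = a ∧ l ^ 2 ∣ d), jacobiSym (d : ℤ) n := by
    simp_rw [mul_sum, sum_filter]
    rw [sum_comm]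
    apply sum_congr rfl
    intro d hd
    rw [mem_Icc] at hd
    have h2 := sqf_ind hd.1 hd.2
    rw [sum_filter] at h2
    by_cases h3 : d % 8 = a
    · have h4 : ∀ l ∈ Icc 1 D,
          (if d % 8 = a ∧ l ^ 2 ∣ d then ArithmeticFunction.moebius l * jacobiSym (d : ℤ) n else 0) =
          (if l ^ 2 ∣ d then ArithmeticFunction.moebius l else 0) * jacobiSym (d : ℤ) n := by
        intro l _
        by_cases h5 : l ^ 2 ∣ d
        · rw [if_pos ⟨h3, h5⟩, if_pos h5]
        · rw [if_neg (fun h => h5 h.2), if_neg h5, zero_mul]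
      rw [sum_congr rfl h4, ← sum_mul, h2]
      by_cases h5 : Squarefree d
      · rw [if_pos ⟨h5, h3⟩, if_pos h5, one_mul]
      · rw [if_neg (fun h => h5 h.1), if_neg h5, zero_mul]
    · simp [h3]
  rw [h1, Int.cast_sum]
  refine (abs_sum_le_sum_abs _ _).trans ?_
  have h2 : ∀ l ∈ Icc 1 D, |((ArithmeticFunction.moebius l *
      ∑ d ∈ (Icc 1 D).filter (fun d => d % 8 = a ∧ l ^ 2 ∣ d), jacobiSym (d : ℤ) n : ℤ) : ℝ)| ≤
      min (Real.sqrt D ^ 2 / (l : ℝ) ^ 2) (Real.sqrt (2 * BB n) ^ 2) := by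
    intro l hl
    rw [mem_Icc] at hl
    rw [Real.sq_sqrt (Nat.cast_nonneg D), Real.sq_sqrt (by positivity)]
    rw [Int.cast_mul, abs_mul]
    have h3 : |((ArithmeticFunction.moebius l : ℤ) : ℝ)| ≤ 1 := by
      rw [← Int.cast_abs]
      exact_mod_cast ArithmeticFunction.abs_moebius_le_one
    calc _ ≤ 1 * _ := mul_le_mul_of_nonneg_right h3 (abs_nonneg _)
      _ ≤ _ := by rw [one_mul]; exact inner n ho hn a D l ha8 ha1 hl.1
  refine (sum_le_sum h2).trans ?_
  apply sum_min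
  · exact Real.sqrt_pos.mpr (by exact_mod_cast hD)
  · exact Real.sqrt_pos.mpr (by positivity)

lemma BB_le (ε : ℝ) (hε : 0 < ε) : ∃ C : ℝ, 0 < C ∧ ∀ n : ℕ, 1 ≤ n →
    BB n ≤ C * (n : ℝ) ^ (1 / 2 + 2 * ε) := by
  obtain ⟨C1, hC1, h1⟩ := H353.divisor_bound_real ε hε
  refine ⟨C1 * (2 * (1 + 1 / ε)), by positivity, ?_⟩
  intro n hn
  have hn1 : (1 : ℝ) ≤ n := by exact_mod_cast hn
  have hn0 : (0 : ℝ) < n := by linarith
  have h2 := h1 n (by omega)
  have h3 : 1 + Real.log n ≤ (1 + 1 / ε) * (n : ℝ) ^ ε := by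
    have h4 := Real.log_le_rpow_div hn0.le hε
    have h5 : (1 : ℝ) ≤ (n : ℝ) ^ ε := Real.one_le_rpow hn1 hε.le
    have h6 : (n : ℝ) ^ ε / ε = 1 / ε * (n : ℝ) ^ ε := by ring
    rw [h6] at h4
    linarith
  have h7 : 0 ≤ Real.log n := Real.log_natCast_nonneg n
  have h8 : (n : ℝ) ^ (1 / 2 + 2 * ε) = (n : ℝ) ^ ε * (Real.sqrt n * (n : ℝ) ^ ε) := by
    rw [Real.sqrt_eq_rpow, ← Real.rpow_add hn0, ← Real.rpow_add hn0]
    congr 1
    ring
  rw [h8]
  unfold BB
  calc (n.divisors.card : ℝ) * (2 * Real.sqrt n * (1 + Real.log n)) ≤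
      (C1 * (n : ℝ) ^ ε) * (2 * Real.sqrt n * ((1 + 1 / ε) * (n : ℝ) ^ ε)) := by
        gcongr
    _ = _ := by ring

end Pool.Agent.Y369.QF
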