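import Pool.Agent.Y752.QF.Stm2
import Pool.Agent.Y369.QF.NsqB

set_option autoImplicit false

/-! Squarefree numbers in a class mod 8, twisted by a nontrivial Jacobi symbol (S_NSQ). -/

namespace Pool.Agent.Y369.QF

open Finset
open Pool.Agent.Y752.QF

theorem NSQ : S_NSQ := by
  intro ε hε
  obtain ⟨C, hC, hB⟩ := BB_le ε hε
  refine ⟨4 * Real.sqrt (2 * C), by positivity, ?_⟩
  intro D n a ho hn ha
  have hn1 : 1 ≤ n := ho.pos
  have hn0 : (0 : ℝ) < n := by exact_mod_cast hn1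
  have hD : 0 ≤ Real.sqrt D := Real.sqrt_nonneg _
  have hr : 0 ≤ (n : ℝ) ^ (1 / 4 + ε) := Real.rpow_nonneg hn0.le _
  rcases lt_or_ge a 8 with ha8 | ha8
  · have h1 := main_bound n ho hn a D ha8 ha
    have h2 : ∑ d ∈ (Icc 1 D).filter (fun d => Squarefree d ∧ d % 8 = a),
        Pool.Agent.H306R2.RZ.js d n =
        ((∑ d ∈ (Icc 1 D).filter (fun d => Squarefree d ∧ d % 8 = a), jacobiSym (d : ℤ) n : ℤ) : ℝ) := by
      rw [Int.cast_sum]
      rfl
    have h3 : Real.sqrt (2 * BB n) ≤ Real.sqrt (2 * C) * (n : ℝ) ^ (1 / 4 + ε) := by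
      apply Real.sqrt_le_iff.mpr
      refine ⟨by positivity, ?_⟩
      rw [mul_pow, Real.sq_sqrt (by positivity)]
      have h4 : ((n : ℝ) ^ (1 / 4 + ε)) ^ 2 = (n : ℝ) ^ (1 / 2 + 2 * ε) := by
        rw [← Real.rpow_natCast, ← Real.rpow_mul hn0.le]
        congr 1
        push_cast
        ring
      rw [h4]
      have := hB n hn1
      linarith
    rw [← h2] at h1
    calc _ ≤ 4 * Real.sqrt D * Real.sqrt (2 * BB n) := h1
      _ ≤ 4 * Real.sqrt D * (Real.sqrt (2 * C) * (n : ℝ) ^ (1 / 4 + ε)) := by gcongr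
      _ = _ := by ring
  · have h1 : (Icc 1 D).filter (fun d => Squarefree d ∧ d % 8 = a) = ∅ := by
      rw [filter_eq_empty_iff]
      rintro d _ ⟨_, h2⟩
      have := Nat.mod_lt d (show 8 > 0 by norm_num)
      omega
    rw [h1, sum_empty, abs_zero]
    positivity

end Pool.Agent.Y369.QF
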