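import Pool.Agent.H379R2.W.JChar
import Pool.Agent.H353R2.Z2

set_option autoImplicit false

/-! Squarefree numbers twisted by a nontrivial Jacobi symbol: parts. -/

namespace Pool.Agent.Y369.QF

open Finset

/-- a nontrivial Jacobi symbol takes the value `-1` -/
lemma exists_neg {n : ℕ} (ho : Odd n) (hn : ¬ IsSquare n) : ∃ a : ℕ, jacobiSym (a : ℤ) n = -1 := by
  have hn0 : n ≠ 0 := by rintro rfl; simp at ho
  have : NeZero n := ⟨hn0⟩
  obtain ⟨s, b, hsb, hs⟩ := Nat.sq_mul_squarefree n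
  have hs1 : s ≠ 1 := by
    rintro rfl
    apply hn
    rw [mul_one] at hsb
    exact ⟨b, by rw [← hsb, sq]⟩
  have hos : Odd s := by
    rw [← hsb] at ho
    exact Nat.Odd.of_mul_right ho
  obtain ⟨a0, ha0⟩ := Pool.Agent.H379R2.W.exists_neg_one hs squarefree_one hos odd_one hs1
  rw [mul_one] at ha0
  have hs0 : s ≠ 0 := hs.ne_zero
  have hb0 : b ≠ 0 := by rintro rfl; simp at hsb; omega
  have : NeZero s := ⟨hs0⟩
  have : NeZero b := ⟨hb0⟩
  have : NeZero (b ^ 2) := ⟨by positivity⟩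
  have hu : IsUnit (a0 : ZMod s) := by
    rw [ZMod.isUnit_iff_coprime]
    by_contra hc
    have : jacobiSym (a0 : ℤ) s = 0 := by
      rw [jacobiSym.eq_zero_iff_not_coprime, Int.gcd_natCast_natCast]
      exact hc
    rw [this] at ha0
    norm_num at ha0
  obtain ⟨u0, hu0⟩ := hu
  have hdvd : s ∣ n := ⟨b ^ 2, by rw [← hsb, mul_comm]⟩
  obtain ⟨u, hu⟩ := ZMod.unitsMap_surjective hdvd u0
  refine ⟨(u : ZMod n).val, ?_⟩
  have hco : Nat.Coprime (u : ZMod n).val n := ZMod.val_coe_unit_coprime u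
  have h1 : jacobiSym (((u : ZMod n).val : ℕ) : ℤ) s = jacobiSym (a0 : ℤ) s := by
    rw [jacobiSym.mod_left, jacobiSym.mod_left (a0 : ℤ)]
    congr 1
    have h2 : (((u : ZMod n).val : ℕ) : ZMod s) = ((a0 : ℕ) : ZMod s) := by
      have h3 : ((u : ZMod n).cast : ZMod s) = (a0 : ZMod s) := by
        rw [← hu0, ← hu]
        rfl
      rw [← h3, ZMod.natCast_val]
    have h4 := (ZMod.natCast_eq_natCast_iff _ _ _).mp h2
    exact_mod_cast h4
  have h2 : jacobiSym (((u : ZMod n).val : ℕ) : ℤ) n =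
      jacobiSym (((u : ZMod n).val : ℕ) : ℤ) (b ^ 2) * jacobiSym (((u : ZMod n).val : ℕ) : ℤ) s :=
    (congrArg (jacobiSym (((u : ZMod n).val : ℕ) : ℤ)) hsb.symm).trans (jacobiSym.mul_right _ _ _)
  rw [h2, h1, ha0, jacobiSym.pow_right]
  have h5 : jacobiSym (((u : ZMod n).val : ℕ) : ℤ) b ^ 2 = 1 := by
    apply jacobiSym.sq_one
    rw [Int.gcd_natCast_natCast]
    exact hco.coprime_dvd_right ⟨b * s, by rw [← hsb]; ring⟩
  rw [h5]
  norm_num

/-- the bound -/
noncomputable def BB (n : ℕ) : ℝ := n.divisors.card * (2 * Real.sqrt n * (1 + Real.log n))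

/-- classes mod 8 -/
lemma class_sum (n : ℕ) (ho : Odd n) (hn : ¬ IsSquare n) (a N : ℕ) (ha8 : a < 8) (ha1 : 1 ≤ a) :
    |((∑ e ∈ (Icc 1 N).filter (fun e => e % 8 = a), jacobiSym (e : ℤ) n : ℤ) : ℝ)| ≤ 2 * BB n := by
  have hn1 : 1 ≤ n := ho.pos
  have hn0 : n ≠ 0 := by omega
  have : NeZero n := ⟨hn0⟩
  have hco : Nat.Coprime 8 n := by
    have : Nat.Coprime 2 n := (Nat.coprime_two_left).mpr ho
    exact Nat.Coprime.pow_left 3 this
  obtain ⟨t, ht1, ht2⟩ := Nat.chineseRemainder hco 0 a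
  -- t = 8 t'
  obtain ⟨t', rfl⟩ : 8 ∣ t := (Nat.modEq_zero_iff_dvd).mp ht1
  have hPV := Pool.Agent.H379R2.W.jacobi_sum_le n hn1 (exists_neg ho hn)
  set J := (N + 8 - a) / 8 with hJ
  -- make t' ≥ 1
  set T := t' + n with hT
  have hT1 : 1 ≤ T := by omega
  have hT2 : 8 * T ≡ a [MOD n] := by
    have : 8 * T = 8 * t' + 8 * n := by rw [hT]; ring
    rw [this]
    have h3 : 8 * t' + 8 * n ≡ 8 * t' [MOD n] := by
      simp [Nat.ModEq]
    exact h3.trans ht2
  have h1 : ∑ e ∈ (Icc 1 N).filter (fun e => e % 8 = a), jacobiSym (e : ℤ) n =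
      ∑ j ∈ range J, jacobiSym ((a + 8 * j : ℕ) : ℤ) n := by
    symm
    apply sum_nbij' (fun j => a + 8 * j) (fun e => e / 8)
    · intro j hj
      rw [mem_range] at hj
      rw [mem_filter, mem_Icc]
      omega
    · intro e he
      rw [mem_filter, mem_Icc] at he
      rw [mem_range]
      omega
    · intro j hj
      rw [mem_range] at hj
      show (a + 8 * j) / 8 = j
      omega
    · intro e he
      rw [mem_filter, mem_Icc] at he
      show a + 8 * (e / 8) = e
      omega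
    · intro j hj
      rfl
  have h2 : ∀ j : ℕ, jacobiSym ((a + 8 * j : ℕ) : ℤ) n =
      jacobiSym (8 : ℤ) n * jacobiSym ((T + j : ℕ) : ℤ) n := by
    intro j
    rw [← jacobiSym.mul_left, jacobiSym.mod_left, jacobiSym.mod_left (8 * ((T + j : ℕ) : ℤ))]
    congr 1
    have h3 : a + 8 * j ≡ 8 * (T + j) [MOD n] := by
      rw [mul_add]
      exact (hT2.symm).add_right _
    exact_mod_cast h3
  rw [h1]
  simp_rw [h2]
  rw [← mul_sum]
  have h3 : ∑ j ∈ range J, jacobiSym ((T + j : ℕ) : ℤ) n =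
      ∑ i ∈ Icc 1 (T - 1 + J), jacobiSym (i : ℤ) n - ∑ i ∈ Icc 1 (T - 1), jacobiSym (i : ℤ) n := by
    have h4 : ∑ i ∈ Icc 1 (T - 1 + J), jacobiSym (i : ℤ) n =
        ∑ i ∈ Icc 1 (T - 1), jacobiSym (i : ℤ) n + ∑ i ∈ Ico T (T + J), jacobiSym (i : ℤ) n := by
      rw [← sum_union]
      · congr 1
        ext i
        simp only [mem_union, mem_Icc, mem_Ico]
        omega
      · rw [disjoint_left]
        intro i hi
        simp only [mem_Icc, mem_Ico] at hi ⊢
        omega
    rw [h4, sum_Ico_eq_sum_range, Nat.add_sub_cancel_left, add_sub_cancel_left]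
  rw [h3]
  have h4 := hPV (T - 1 + J)
  have h5 := hPV (T - 1)
  have h6 := Pool.Agent.H379R2.W.jacobi_natAbs_le 8 n
  have h6' : |((jacobiSym 8 n : ℤ) : ℝ)| ≤ 1 := by
    rw [← Int.cast_abs]
    exact_mod_cast h6
  rw [Int.cast_mul, abs_mul, Int.cast_sub]
  have h7 : |((∑ n_1 ∈ Icc 1 (T - 1 + J), jacobiSym (n_1 : ℤ) n : ℤ) : ℝ) -
      ((∑ n_1 ∈ Icc 1 (T - 1), jacobiSym (n_1 : ℤ) n : ℤ) : ℝ)| ≤ 2 * BB n := by
    refine (abs_sub _ _).trans ?_
    unfold BB
    linarith
  have h8 : 0 ≤ |((∑ n_1 ∈ Icc 1 (T - 1 + J), jacobiSym (n_1 : ℤ) n : ℤ) : ℝ) -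
      ((∑ n_1 ∈ Icc 1 (T - 1), jacobiSym (n_1 : ℤ) n : ℤ) : ℝ)| := abs_nonneg _
  calc _ ≤ 1 * _ := mul_le_mul_of_nonneg_right h6' h8
    _ ≤ _ := by rw [one_mul]; exact h7

/-- the sum of the minima -/
lemma sum_min (s t : ℝ) (hs : 0 < s) (ht : 0 < t) (L : ℕ) :
    ∑ l ∈ Icc 1 L, min (s ^ 2 / (l : ℝ) ^ 2) (t ^ 2) ≤ 4 * s * t := by
  have key : ∑ l ∈ Icc 1 L, min (s ^ 2 / (l : ℝ) ^ 2) (t ^ 2) ≤
      4 * s * t * (1 - s / (s + t * L)) := by
    induction L with
    | zero =>
      simp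
      have : s / s = 1 := div_self hs.ne'
      rw [this]
      simp
    | succ L ih =>
      rw [sum_Icc_succ_top (by omega)]
      have hL : (0 : ℝ) ≤ L := Nat.cast_nonneg L
      set l : ℝ := ((L + 1 : ℕ) : ℝ) with hl
      have hl' : l = L + 1 := by rw [hl]; push_cast; rfl
      have hl1 : 1 ≤ l := by linarith
      have e1 : 4 * s * t * (1 - s / (s + t * l)) - 4 * s * t * (1 - s / (s + t * L)) =
          4 * s ^ 2 * t ^ 2 / ((s + t * L) * (s + t * l)) := by
        have h1 : s + t * L ≠ 0 := by positivity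
        have h2 : s + t * l ≠ 0 := by positivity
        field_simp
        rw [hl']
        ring
      have e2 : min (s ^ 2 / l ^ 2) (t ^ 2) ≤ 4 * s ^ 2 * t ^ 2 / ((s + t * L) * (s + t * l)) := by
        have hpos : 0 < (s + t * L) * (s + t * l) := by positivity
        rcases le_total s (t * l) with h | h
        · refine (min_le_left _ _).trans ?_
          rw [div_le_div_iff₀ (by positivity) hpos]
          have h1 : (s + t * L) * (s + t * l) ≤ (2 * (t * l)) * (2 * (t * l)) := by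
            apply mul_le_mul _ _ (by positivity) (by positivity)
            · nlinarith
            · linarith
          calc s ^ 2 * ((s + t * L) * (s + t * l)) ≤ s ^ 2 * ((2 * (t * l)) * (2 * (t * l))) := by
                apply mul_le_mul_of_nonneg_left h1 (by positivity)
            _ = _ := by ring
        · refine (min_le_right _ _).trans ?_
          rw [le_div_iff₀ hpos]
          have h1 : (s + t * L) * (s + t * l) ≤ (2 * s) * (2 * s) := by
            apply mul_le_mul _ _ (by positivity) (by positivity)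
            · nlinarith
            · linarith
          calc t ^ 2 * ((s + t * L) * (s + t * l)) ≤ t ^ 2 * ((2 * s) * (2 * s)) := by
                apply mul_le_mul_of_nonneg_left h1 (by positivity)
            _ = _ := by ring
      linarith
  refine key.trans ?_
  have h1 : 0 ≤ s / (s + t * L) := by positivity
  have h2 : 0 < 4 * s * t := by positivity
  nlinarith

end Pool.Agent.Y369.QF
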